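import Pool.Agent.H914R2.WBase2

/-!
# Change of the coefficients of a tensor product and eigenbases
-/

set_option linter.unusedSectionVars false

open TensorProduct

namespace Pool.Agent.N521.HR

open Module
open Pool.Agent.H914

section Bb

variable {K E L : Type} [Field K] [Field E] [Field L] [Algebra K E] [Algebra K L]
  {V : Type} [AddCommGroup V] [Module K V]
  {A : Type} [Ring A] [Algebra K A] {B : Type} [Ring B] [Algebra K B]

/-- A ring homomorphism between extensions of a field all of whose elements are rational is an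
algebra homomorphism. -/
noncomputable def sK (hK : ∀ r : K, ∃ q : ℚ, (q : K) = r) (σ : E →+* L) : E →ₐ[K] L :=
  { σ with
    commutes' := by
      intro r
      obtain ⟨q, rfl⟩ := hK r
      have h1 : algebraMap K E (q : K) = (q : E) := map_ratCast _ _
      have h2 : algebraMap K L (q : K) = (q : L) := map_ratCast _ _
      rw [h1, h2]
      exact map_ratCast σ q }

/-- The change of the coefficients. -/
noncomputable def bb (s : E →ₐ[K] L) : E ⊗[K] V →ₗ[K] L ⊗[K] V :=
  TensorProduct.map s.toLinearMap LinearMap.id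

variable (s : E →ₐ[K] L)

lemma bb_tmul (l : E) (v : V) : bb s (l ⊗ₜ[K] v) = s l ⊗ₜ[K] v := by
  rw [bb, TensorProduct.map_tmul]
  rfl

lemma bb_smul (c : E) (x : E ⊗[K] V) : bb s (c • x) = s c • bb s x := by
  induction x using TensorProduct.induction_on with
  | zero => rw [smul_zero, map_zero, smul_zero]
  | add x y hx hy => rw [smul_add, map_add, hx, hy, map_add, smul_add]
  | tmul l b =>
    rw [TensorProduct.smul_tmul', bb_tmul, bb_tmul, TensorProduct.smul_tmul', smul_eq_mul,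
      smul_eq_mul, map_mul]

lemma bb_one : bb s (1 : E ⊗[K] A) = 1 := by
  have h1 : (1 : E ⊗[K] A) = (1 : E) ⊗ₜ[K] (1 : A) := rfl
  have h2 : (1 : L ⊗[K] A) = (1 : L) ⊗ₜ[K] (1 : A) := rfl
  rw [h1, h2, bb_tmul, map_one]

lemma bb_mul (x y : E ⊗[K] A) : bb s (x * y) = bb s x * bb s y := by
  refine tmul_induction (P := fun x => bb s (x * y) = bb s x * bb s y) ?_ ?_ ?_ x
  · rw [zero_mul, map_zero, zero_mul]
  · intro x z hx hz; rw [add_mul, map_add, hx, hz, map_add, add_mul]
  · intro l a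
    refine tmul_induction (P := fun y => bb s ((l ⊗ₜ[K] a : E ⊗[K] A) * y) =
      bb s (l ⊗ₜ[K] a) * bb s y) ?_ ?_ ?_ y
    · rw [mul_zero, map_zero, mul_zero]
    · intro x y hx hy; rw [mul_add, map_add, hx, hy, map_add, mul_add]
    · intro m b
      rw [Algebra.TensorProduct.tmul_mul_tmul, bb_tmul, bb_tmul, bb_tmul,
        Algebra.TensorProduct.tmul_mul_tmul, map_mul]

lemma bb_baseChange {V' : Type} [AddCommGroup V'] [Module K V'] (f : V →ₗ[K] V') (x : E ⊗[K] V) :
    bb s (f.baseChange E x) = f.baseChange L (bb s x) := by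
  induction x using TensorProduct.induction_on with
  | zero => rw [map_zero, map_zero, map_zero, map_zero]
  | add x y hx hy => rw [map_add, map_add, hx, hy, map_add, map_add]
  | tmul l b => rw [LinearMap.baseChange_tmul, bb_tmul, bb_tmul, LinearMap.baseChange_tmul]

lemma bb_form (tr : A →ₗ[K] K) (x : E ⊗[K] A) :
    formBase L tr (bb s x) = s (formBase E tr x) := by
  refine tmul_induction (P := fun x => formBase L tr (bb s x) = s (formBase E tr x)) ?_ ?_ ?_ x
  · rw [map_zero, map_zero, map_zero, map_zero]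
  · intro x y hx hy; rw [map_add, map_add, hx, hy, map_add, map_add]
  · intro l a
    rw [bb_tmul, formBase_tmul, formBase_tmul, map_mul, AlgHom.commutes]

lemma bb_gr {p : Submodule K A} {x : E ⊗[K] A} (hx : x ∈ p.baseChange E) :
    bb s x ∈ p.baseChange L := by
  refine base_induction (P := fun a => bb s a ∈ p.baseChange L) ?_ ?_ ?_ hx
  · rw [map_zero]; exact Submodule.zero_mem _
  · intro x y hx hy; rw [map_add]; exact Submodule.add_mem _ hx hy
  · intro l a ha
    rw [bb_tmul]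
    exact Submodule.tmul_mem_baseChange_of_mem _ ha

lemma bb_inj : Function.Injective (bb s : E ⊗[K] V →ₗ[K] L ⊗[K] V) :=
  Module.Flat.rTensor_preserves_injective_linearMap (M := V) s.toLinearMap s.injective

lemma bb_bil (ψ : LinearMap.BilinForm K V) (x y : E ⊗[K] V) :
    LinearMap.BilinForm.baseChange L ψ (bb s x) (bb s y) =
      s (LinearMap.BilinForm.baseChange E ψ x y) := by
  induction x using TensorProduct.induction_on with
  | zero => simp only [map_zero, LinearMap.zero_apply]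
  | add x z hx hz =>
    rw [map_add, map_add, map_add, LinearMap.add_apply, LinearMap.add_apply, hx, hz, map_add]
  | tmul l a =>
    induction y using TensorProduct.induction_on with
    | zero => simp only [map_zero]
    | add x z hx hz => rw [map_add, map_add, map_add, hx, hz, map_add]
    | tmul m b =>
      rw [bb_tmul, bb_tmul, LinearMap.BilinForm.baseChange_tmul,
        LinearMap.BilinForm.baseChange_tmul, Algebra.smul_def, Algebra.smul_def, map_mul,
        map_mul, AlgHom.commutes]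

/-- The extension of a linear map. -/
noncomputable def ex (φ : E ⊗[K] V →ₗ[E] E ⊗[K] V) : L ⊗[K] V →ₗ[L] L ⊗[K] V :=
  LinearMap.liftBaseChange L
    ((bb s : E ⊗[K] V →ₗ[K] L ⊗[K] V) ∘ₗ (φ.restrictScalars K) ∘ₗ (TensorProduct.mk K E V 1))

lemma ex_tmul (φ : E ⊗[K] V →ₗ[E] E ⊗[K] V) (z : L) (v : V) :
    ex s φ (z ⊗ₜ[K] v) = z • bb s (φ ((1 : E) ⊗ₜ[K] v)) := by
  rw [ex, LinearMap.liftBaseChange_tmul]
  rfl

lemma ex_bb (φ : E ⊗[K] V →ₗ[E] E ⊗[K] V) (x : E ⊗[K] V) :
    ex s φ (bb s x) = bb s (φ x) := by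
  induction x using TensorProduct.induction_on with
  | zero => rw [map_zero, map_zero, map_zero, map_zero]
  | add x y hx hy => rw [map_add, map_add, hx, hy, map_add, map_add]
  | tmul l v =>
    rw [bb_tmul, ex_tmul, ← bb_smul, ← map_smul, TensorProduct.smul_tmul', smul_eq_mul, mul_one]

lemma ex_iter (φ : E ⊗[K] V →ₗ[E] E ⊗[K] V) (m : ℕ) (x : E ⊗[K] V) :
    (ex s φ)^[m] (bb s x) = bb s (φ^[m] x) := by
  induction m generalizing x with
  | zero => rfl
  | succ m ih => rw [Function.iterate_succ_apply, ex_bb, ih, Function.iterate_succ_apply]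

lemma ex_mul {φ : E ⊗[K] A →ₗ[E] E ⊗[K] A} (hm : ∀ x y, φ (x * y) = φ x * φ y)
    (x y : L ⊗[K] A) : ex s φ (x * y) = ex s φ x * ex s φ y := by
  refine tmul_induction (P := fun x => ex s φ (x * y) = ex s φ x * ex s φ y) ?_ ?_ ?_ x
  · rw [zero_mul, map_zero, zero_mul]
  · intro x z hx hz; rw [add_mul, map_add, hx, hz, map_add, add_mul]
  · intro l a
    refine tmul_induction (P := fun y => ex s φ ((l ⊗ₜ[K] a : L ⊗[K] A) * y) =
      ex s φ (l ⊗ₜ[K] a) * ex s φ y) ?_ ?_ ?_ y
    · rw [mul_zero, map_zero, mul_zero]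
    · intro x y hx hy; rw [mul_add, map_add, hx, hy, map_add, mul_add]
    · intro m b
      have h1 : (1 : E) ⊗ₜ[K] (a * b) = ((1 : E) ⊗ₜ[K] a) * ((1 : E) ⊗ₜ[K] b) := by
        rw [Algebra.TensorProduct.tmul_mul_tmul, one_mul]
      rw [Algebra.TensorProduct.tmul_mul_tmul, ex_tmul, ex_tmul, ex_tmul, h1, hm, bb_mul,
        smul_mul_smul_comm]

lemma ex_one {φ : E ⊗[K] A →ₗ[E] E ⊗[K] A} (h1 : φ 1 = 1) : ex s φ 1 = 1 := by
  rw [← bb_one s, ex_bb, h1]

/-- The extension of an algebra homomorphism. -/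
noncomputable def exA (φ : E ⊗[K] A →ₗ[E] E ⊗[K] A) (h1 : φ 1 = 1)
    (hm : ∀ x y, φ (x * y) = φ x * φ y) : L ⊗[K] A →ₐ[L] L ⊗[K] A :=
  AlgHom.ofLinearMap (ex s φ) (ex_one s h1) (ex_mul s hm)

/-- Induction on the elements of an extension. -/
lemma ind_bb {P : L ⊗[K] V → Prop} (h0 : P 0) (hadd : ∀ x y, P x → P y → P (x + y))
    (h : ∀ (l : L) (v : V), P (l • bb s ((1 : E) ⊗ₜ[K] v))) (x : L ⊗[K] V) : P x := by
  induction x using TensorProduct.induction_on with
  | zero => exact h0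
  | add x y hx hy => exact hadd _ _ hx hy
  | tmul l v =>
    have h1 := h l v
    rw [bb_tmul, map_one, TensorProduct.smul_tmul', smul_eq_mul, mul_one] at h1
    exact h1

/-- Induction on the elements of an extended subspace. -/
lemma ind_gr {p : Submodule K A} {P : L ⊗[K] A → Prop} (h0 : P 0)
    (hadd : ∀ x y, P x → P y → P (x + y))
    (h : ∀ (l : L), ∀ v ∈ p, P (l • bb s ((1 : E) ⊗ₜ[K] v))) {x : L ⊗[K] A}
    (hx : x ∈ p.baseChange L) : P x := by
  refine base_induction h0 hadd ?_ hx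
  intro l v hv
  have h1 := h l v hv
  rw [bb_tmul, map_one, TensorProduct.smul_tmul', smul_eq_mul, mul_one] at h1
  exact h1

lemma ex_gr {φ : E ⊗[K] A →ₗ[E] E ⊗[K] A} {p : Submodule K A}
    (h : ∀ x ∈ p.baseChange E, φ x ∈ p.baseChange E) (x : L ⊗[K] A) (hx : x ∈ p.baseChange L) :
    ex s φ x ∈ p.baseChange L := by
  refine ind_gr s (P := fun x => ex s φ x ∈ p.baseChange L) ?_ ?_ ?_ hx
  · rw [map_zero]; exact Submodule.zero_mem _
  · intro x y hx hy; rw [map_add]; exact Submodule.add_mem _ hx hy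
  · intro l v hv
    rw [map_smul, ex_bb]
    exact Submodule.smul_mem _ _ (bb_gr s (h _ (Submodule.tmul_mem_baseChange_of_mem _ hv)))

lemma ex_map {f : A →ₐ[K] B} {φ : E ⊗[K] A →ₗ[E] E ⊗[K] A} {φ' : E ⊗[K] B →ₗ[E] E ⊗[K] B}
    (h : ∀ x, φ' (f.toLinearMap.baseChange E x) = f.toLinearMap.baseChange E (φ x))
    (x : L ⊗[K] A) : ex s φ' (f.toLinearMap.baseChange L x) =
      f.toLinearMap.baseChange L (ex s φ x) := by
  refine ind_bb s (P := fun x => ex s φ' (f.toLinearMap.baseChange L x) =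
    f.toLinearMap.baseChange L (ex s φ x)) ?_ ?_ ?_ x
  · rw [map_zero, map_zero, map_zero, map_zero]
  · intro x y hx hy; rw [map_add, map_add, hx, hy, map_add, map_add]
  · intro l v
    rw [map_smul, map_smul, map_smul, map_smul, ex_bb, ← bb_baseChange, ex_bb, h, bb_baseChange]

lemma ex_tr {tr : A →ₗ[K] K} {φ : E ⊗[K] A →ₗ[E] E ⊗[K] A} {c : E}
    (h : ∀ x, formBase E tr (φ x) = c * formBase E tr x) (x : L ⊗[K] A) :
    formBase L tr (ex s φ x) = s c * formBase L tr x := by
  refine ind_bb s (P := fun x => formBase L tr (ex s φ x) = s c * formBase L tr x) ?_ ?_ ?_ x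
  · rw [map_zero, map_zero, mul_zero]
  · intro x y hx hy; rw [map_add, map_add, hx, hy, map_add, mul_add]
  · intro l v
    rw [map_smul, map_smul, map_smul, ex_bb, bb_form, h, map_mul, bb_form, smul_eq_mul,
      smul_eq_mul]
    ring

lemma ex_form {ψ : LinearMap.BilinForm K A} {φ : E ⊗[K] A →ₗ[E] E ⊗[K] A} {p : Submodule K A}
    {c : E} (h : ∀ x ∈ p.baseChange E, ∀ y, LinearMap.BilinForm.baseChange E ψ (φ x) (φ y) =
      c * LinearMap.BilinForm.baseChange E ψ x y) (x : L ⊗[K] A) (hx : x ∈ p.baseChange L)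
    (y : L ⊗[K] A) : LinearMap.BilinForm.baseChange L ψ (ex s φ x) (ex s φ y) =
      s c * LinearMap.BilinForm.baseChange L ψ x y := by
  refine ind_gr s (p := p) (P := fun x => ∀ y : L ⊗[K] A,
    LinearMap.BilinForm.baseChange L ψ (ex s φ x) (ex s φ y) =
    s c * LinearMap.BilinForm.baseChange L ψ x y) ?_ ?_ ?_ hx y
  · intro y
    simp only [map_zero, LinearMap.zero_apply, mul_zero]
  · intro x z hx hz y
    rw [map_add, map_add, map_add, LinearMap.add_apply, LinearMap.add_apply, hx, hz, mul_add]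
  · intro l v hv y
    refine ind_bb s (P := fun y => LinearMap.BilinForm.baseChange L ψ
      (ex s φ (l • bb s ((1 : E) ⊗ₜ[K] v))) (ex s φ y) =
      s c * LinearMap.BilinForm.baseChange L ψ (l • bb s ((1 : E) ⊗ₜ[K] v)) y) ?_ ?_ ?_ y
    · simp only [map_zero, mul_zero]
    · intro x z hx hz
      rw [map_add, map_add, map_add, hx, hz, mul_add]
    · intro m w
      simp only [map_smul, LinearMap.smul_apply, smul_eq_mul]
      rw [ex_bb, ex_bb, bb_bil, bb_bil, h _ (Submodule.tmul_mem_baseChange_of_mem _ hv), map_mul]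
      ring

lemma ex_weil {φ : E ⊗[K] A →ₗ[E] E ⊗[K] A} {p : Submodule K A} (Q : Polynomial ℤ)
    (h : ∀ x ∈ p.baseChange E,
      ∑ m ∈ Finset.range (Q.natDegree + 1), (Q.coeff m : E) • (φ^[m] x) = 0)
    (x : L ⊗[K] A) (hx : x ∈ p.baseChange L) :
    ∑ m ∈ Finset.range (Q.natDegree + 1), (Q.coeff m : L) • ((ex s φ)^[m] x) = 0 := by
  have hit : ∀ m, ∀ y, (ex s φ)^[m] y = ((ex s φ) ^ m : Module.End L (L ⊗[K] A)) y :=
    fun m y => (Module.End.pow_apply _ _ _).symm
  refine ind_gr s (P := fun x => ∑ m ∈ Finset.range (Q.natDegree + 1),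
      (Q.coeff m : L) • ((ex s φ)^[m] x) = 0) ?_ ?_ ?_ hx
  · refine Finset.sum_eq_zero fun m _ => ?_
    rw [hit, map_zero, smul_zero]
  · intro x y hx hy
    have h1 : ∀ m ∈ Finset.range (Q.natDegree + 1),
        (Q.coeff m : L) • ((ex s φ)^[m] (x + y)) =
        (Q.coeff m : L) • ((ex s φ)^[m] x) + (Q.coeff m : L) • ((ex s φ)^[m] y) := by
      intro m _
      rw [hit, hit, hit, map_add, smul_add]
    rw [Finset.sum_congr rfl h1, Finset.sum_add_distrib, hx, hy, add_zero]
  · intro l v hv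
    have h1 : ∀ m ∈ Finset.range (Q.natDegree + 1),
        (Q.coeff m : L) • ((ex s φ)^[m] (l • bb s ((1 : E) ⊗ₜ[K] v))) =
        l • bb s ((Q.coeff m : E) • (φ^[m] ((1 : E) ⊗ₜ[K] v))) := by
      intro m _
      rw [hit, map_smul, ← hit, ex_iter, bb_smul, smul_comm]
      congr 2
      exact (map_intCast s (Q.coeff m)).symm
    rw [Finset.sum_congr rfl h1, ← Finset.smul_sum, ← map_sum,
      h _ (Submodule.tmul_mem_baseChange_of_mem _ hv), map_zero, smul_zero]

omit [Algebra K L] in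
lemma weil_dual {φ : E ⊗[K] A →ₗ[E] E ⊗[K] A} (Q : Polynomial ℤ) (x : E ⊗[K] A)
    (h : ∀ l : E ⊗[K] A → E, (∀ x y, l (x + y) = l x + l y) → (∀ (c : E) x, l (c • x) = c * l x) →
      ∑ m ∈ Finset.range (Q.natDegree + 1), (Q.coeff m : E) * l (φ^[m] x) = 0) :
    ∑ m ∈ Finset.range (Q.natDegree + 1), (Q.coeff m : E) • (φ^[m] x) = 0 := by
  refine (Module.forall_dual_apply_eq_zero_iff E _).1 fun l => ?_
  rw [map_sum]
  refine Eq.trans (Finset.sum_congr rfl fun m _ => ?_)
    (h l (fun x y => map_add l x y) (fun c x => map_smul l c x))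
  rw [map_smul, smul_eq_mul]

end Bb

section Eig

variable {V : Type} [AddCommGroup V] [Module ℂ V] [FiniteDimensional ℂ V]

lemma eig_one (f : Module.End ℂ V) (Q : Polynomial ℤ)
    (hQ : Squarefree (Q.map (Int.castRingHom ℚ)))
    (h : ∀ x, ∑ m ∈ Finset.range (Q.natDegree + 1), (Q.coeff m : ℂ) • (f^[m] x) = 0) :
    (⨆ μ : ℂ, f.eigenspace μ = ⊤) ∧
      ∀ (μ : ℂ) (x : V), x ≠ 0 → f x = μ • x → Polynomial.aeval μ Q = 0 := by
  set P : Polynomial ℂ := Q.map (Int.castRingHom ℂ) with hP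
  have hPs : Squarefree P := by
    have h1 : (Q.map (Int.castRingHom ℚ)).Separable := PerfectField.separable_iff_squarefree.2 hQ
    have h2 : ((Q.map (Int.castRingHom ℚ)).map (algebraMap ℚ ℂ)).Separable := h1.map
    rw [Polynomial.map_map] at h2
    have h3 : (algebraMap ℚ ℂ).comp (Int.castRingHom ℚ) = Int.castRingHom ℂ :=
      RingHom.ext_int _ _
    rw [h3] at h2
    exact h2.squarefree
  have hP0 : ∀ x, Polynomial.aeval f P x = 0 := by
    intro x
    rw [← h x, hP, Polynomial.aeval_eq_sum_range' (n := Q.natDegree + 1)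
      (Nat.lt_succ_of_le (Polynomial.natDegree_map_le)), LinearMap.sum_apply]
    refine Finset.sum_congr rfl fun m _ => ?_
    rw [LinearMap.smul_apply, Polynomial.coeff_map, Module.End.pow_apply]
    rfl
  have hs : f.IsSemisimple :=
    Module.End.isSemisimple_of_squarefree_aeval_eq_zero hPs (LinearMap.ext hP0)
  refine ⟨hs.iSup_eigenspace_eq_top, ?_⟩
  intro μ x hx hμ
  have h1 : Polynomial.aeval f P x = (Polynomial.eval μ P) • x :=
    Module.End.aeval_apply_of_hasEigenvector ⟨Module.End.mem_eigenspace_iff.2 hμ, hx⟩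
  rw [hP0 x] at h1
  have h2 : Polynomial.eval μ P = 0 := by
    rcases smul_eq_zero.1 h1.symm with h3 | h3
    · exact h3
    · exact absurd h3 hx
  rw [hP, Polynomial.eval_map] at h2
  exact h2

/-- A basis of eigenvectors in a graded vector space. -/
theorem eig_basis (gr : ℕ → Submodule ℂ V) (htop : ⨆ i, gr i = ⊤) (f : Module.End ℂ V)
    (hf : ∀ i, ∀ x ∈ gr i, f x ∈ gr i) (q : ℝ)
    (hQ : ∀ i : ℕ, ∃ Q : Polynomial ℤ, Squarefree (Q.map (Int.castRingHom ℚ)) ∧
      (∀ y : ℂ, Polynomial.aeval y Q = 0 → ‖y‖ ^ 2 = q ^ i) ∧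
      ∀ x ∈ gr i, ∑ m ∈ Finset.range (Q.natDegree + 1), (Q.coeff m : ℂ) • (f^[m] x) = 0) :
    ∃ (κ : Type) (_ : Fintype κ) (b : Basis κ ℂ V) (dg : κ → ℕ) (lam : κ → ℂ),
      ∀ i, b i ∈ gr (dg i) ∧ f (b i) = lam i • b i ∧ ‖lam i‖ ^ 2 = q ^ dg i := by
  set S : Set V := {v | ∃ (i : ℕ) (μ : ℂ), v ∈ gr i ∧ f v = μ • v ∧ ‖μ‖ ^ 2 = q ^ i} with hS
  have hs : ⊤ ≤ Submodule.span ℂ S := by
    rw [← htop]
    refine iSup_le fun i => ?_
    intro x hx
    obtain ⟨Q, h1, h2, h3⟩ := hQ i
    set g : Module.End ℂ (gr i) := f.restrict (hf i) with hg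
    have hgi : ∀ (m : ℕ) (y : gr i), ((g^[m] y : gr i) : V) = f^[m] (y : V) := by
      intro m
      induction m with
      | zero => intro y; rfl
      | succ m ih =>
        intro y
        rw [Function.iterate_succ_apply, Function.iterate_succ_apply, ih]
        rfl
    obtain ⟨h4, h5⟩ := eig_one g Q h1 (by
      intro y
      apply Subtype.ext
      rw [AddSubmonoidClass.coe_finsetSum]
      refine Eq.trans (Finset.sum_congr rfl fun m _ => ?_) (h3 y y.2)
      rw [Submodule.coe_smul, hgi])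
    have h6 : (⟨x, hx⟩ : gr i) ∈ ⨆ μ : ℂ, g.eigenspace μ := by
      rw [h4]
      exact Submodule.mem_top
    have h7 : (⨆ μ : ℂ, g.eigenspace μ) ≤ (Submodule.span ℂ S).comap (gr i).subtype := by
      refine iSup_le fun μ => ?_
      intro y hy
      rw [Submodule.mem_comap]
      by_cases hy0 : y = 0
      · rw [hy0, map_zero]
        exact Submodule.zero_mem _
      · refine Submodule.subset_span ⟨i, μ, y.2, ?_, h2 μ (h5 μ y hy0 ?_)⟩
        · have h8 := Module.End.mem_eigenspace_iff.1 hy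
          exact congrArg Subtype.val h8
        · exact Module.End.mem_eigenspace_iff.1 hy
    exact h7 h6
  set b := Basis.ofSpan hs with hb
  have hbS : ∀ i, b i ∈ S := fun i => Basis.ofSpan_subset hs ⟨i, rfl⟩
  choose dg lam h using hbS
  exact ⟨_, FiniteDimensional.fintypeBasisIndex b, b, dg, lam, h⟩

end Eig

end Pool.Agent.N521.HR
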