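import Pool.Agent.N204.HR.Stm2
import Pool.Agent.N521.HR.ECAlg

/-!
# From the coefficients `E` to complex coefficients
-/

set_option linter.unusedSectionVars false

open CategoryTheory AlgebraicGeometry TensorProduct

universe u

namespace Pool.Agent.N521.HR

open Module Matrix
open Pool.Agent.H914 Pool.Agent.H914.VarClass Pool.Agent.H914.VarClass.Obj
  Pool.Agent.H914.WeilCohomology
open Pool.Agent.Y133.Half (pw pfst psnd wb)
open Pool.Agent.Y121.AH (CW em)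
open Pool.Agent.Y121.AHS
open Pool.Agent.N996.BP (kp IsCoordinateMap IsPHS RForm IsPolarisation)
open Pool.Agent.N996.BP.Geo (cc lop tauT Fx)
open Pool.Agent.N204.RD.Raw (Coh IsLin IsLinear InSpan coh ap vzero)
open Pool.Agent.N204.HR.Raw
open Pool.Agent.N204.HR

/-- A multiplicative linear map which multiplies the trace by a nonzero constant fixes the unit. -/
lemma phi_one {F A : Type} [Field F] [Ring A] [Algebra F A] {gr : ℕ → Submodule F A} {n : ℕ}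
    {tr : A →ₗ[F] F} (hP : IsPoincareAlgebra gr n tr) (φ : A →ₗ[F] A)
    (hm : ∀ x y, φ (x * y) = φ x * φ y) (hd : φ 1 ∈ gr 0) (c : F) (hc : c ≠ 0)
    (ht : ∀ x, tr (φ x) = c * tr x) : φ 1 = 1 := by
  by_cases h0 : (1 : A) = 0
  · have h1 : ∀ x : A, x = 0 := fun x => by rw [← one_mul x, h0, zero_mul]
    rw [h1 (φ 1), h1 1]
  · rw [hP.gr_zero] at hd
    obtain ⟨a, ha⟩ := Submodule.mem_span_singleton.1 hd
    have h1 : φ 1 * φ 1 = φ 1 := by rw [← hm, one_mul]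
    rw [← ha, smul_mul_smul_comm, one_mul, ← sub_eq_zero, ← sub_smul, smul_eq_zero] at h1
    have h2 : a * a - a = 0 := h1.resolve_right h0
    have h3 : a * (a - 1) = 0 := by rw [← h2]; ring
    rcases mul_eq_zero.1 h3 with h4 | h4
    · exfalso
      apply h0
      apply hP.nondeg
      intro b
      have h5 : φ (1 * b) = 0 := by rw [hm, ← ha, h4, zero_smul, zero_mul]
      have h6 := ht (1 * b)
      rw [h5, map_zero] at h6
      exact (mul_eq_zero.1 h6.symm).resolve_left hc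
    · rw [← ha, sub_eq_zero.1 h4, one_smul]

variable {k : Type u} [Field k] {𝒱 : VarClass k} {ops : CycleOps 𝒱} (T : HodgeTheory ops)
  {X : 𝒱.Obj} (ψ : RForm T.W X) (E : Type) [Field E] [Algebra T.W.K E]

/-- The change of the coefficients. -/
noncomputable def bY (σ : E →+* ℂ) (Y : 𝒱.Obj) (x : HL T.W E Y) : (CW (toH T)).H Y :=
  (bb (sK T.rat σ) (show E ⊗[T.W.K] T.W.H Y from x) : ℂ ⊗[T.W.K] T.W.H Y)

/-- The maps as linear maps. -/
noncomputable def phL {φ : ∀ n, (coh T E ψ).H n → (coh T E ψ).H n}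
    (h : ∀ n, IsLinear (coh T E ψ) n (φ n)) (n : ℕ) :
    E ⊗[T.W.K] T.W.H (pw X n) →ₗ[E] E ⊗[T.W.K] T.W.H (pw X n) where
  toFun x := φ n x
  map_add' := (h n).1
  map_smul' := (h n).2

section Fr

variable {T ψ E} {q : ℕ} {φ : ∀ n, (coh T E ψ).H n → (coh T E ψ).H n}
  {S : ∀ n : ℕ, ℕ → Set (T.W.H (pw X n))}
  (h : IsFrob (coh T E ψ) q φ (Raw.ext T E S))

include h

lemma ph_mul (n : ℕ) (x y : E ⊗[T.W.K] T.W.H (pw X n)) :
    phL T ψ E h.lin n (x * y) = phL T ψ E h.lin n x * phL T ψ E h.lin n y := h.mul n x y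

lemma ph_gr (n i : ℕ) {x : E ⊗[T.W.K] T.W.H (pw X n)} (hx : x ∈ (T.W.gr (pw X n) i).baseChange E) :
    phL T ψ E h.lin n x ∈ (T.W.gr (pw X n) i).baseChange E := h.deg n i x hx

lemma ph_tr (x : E ⊗[T.W.K] T.W.H X) :
    formBase E (T.W.tr X) (phL T ψ E h.lin 0 x) = (q : E) ^ X.dim * formBase E (T.W.tr X) x :=
  h.tr x

lemma ph_map {n m : ℕ} {f : pw X m ⟶ pw X n} (hf : IsCoordinateMap f)
    (x : E ⊗[T.W.K] T.W.H (pw X n)) :
    phL T ψ E h.lin m ((T.W.map f).toLinearMap.baseChange E x) =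
      (T.W.map f).toLinearMap.baseChange E (phL T ψ E h.lin n x) :=
  h.pull n m (mapL f) ⟨f, hf, rfl⟩ x

lemma ph_one0 : phL T ψ E h.lin 0 1 = 1 := by
  have hE : CharZero E := charZero_of_injective_algebraMap (algebraMap T.W.K E).injective
  refine phi_one (A := E ⊗[T.W.K] T.W.H X)
    (IsPoincareAlgebra.baseChange (L := E) (T.W.isPoincareAlgebra X))
    (phL T ψ E h.lin 0) (ph_mul h 0) ?_ ((q : E) ^ X.dim) ?_ (ph_tr h)
  · exact ph_gr h 0 0 (IsPoincareAlgebra.baseChange (L := E) (T.W.isPoincareAlgebra X)).one_mem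
  · exact pow_ne_zero _ (Nat.cast_ne_zero.2 h.q_pos.ne')

lemma isCoord (n : ℕ) : IsCoordinateMap (X := X) (n := 0) (m := n)
    (Pool.Agent.N996.BP.pr X n 0) := by
  intro i hi
  obtain rfl : i = 0 := by omega
  exact ⟨0, Nat.zero_le _, Category.comp_id _⟩

lemma ph_one (n : ℕ) : phL T ψ E h.lin n 1 = 1 := by
  have h1 := ph_map h (isCoord h n) (1 : E ⊗[T.W.K] T.W.H X)
  have h2 : (T.W.map (Pool.Agent.N996.BP.pr X n 0)).toLinearMap.baseChange E
      (1 : E ⊗[T.W.K] T.W.H X) = (1 : E ⊗[T.W.K] T.W.H (pw X n)) := by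
    rw [← mapBase_eq, map_one]
  have h3 := ph_one0 h
  calc phL T ψ E h.lin n 1 = phL T ψ E h.lin n ((T.W.map
        (Pool.Agent.N996.BP.pr X n 0)).toLinearMap.baseChange E (1 : E ⊗[T.W.K] T.W.H X)) := by
        rw [h2]
    _ = _ := h1
    _ = (T.W.map (Pool.Agent.N996.BP.pr X n 0)).toLinearMap.baseChange E
      (1 : E ⊗[T.W.K] T.W.H X) := congrArg _ h3
    _ = 1 := h2

/-- The extension to complex coefficients. -/
noncomputable def PhA (σ : E →+* ℂ) (n : ℕ) :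
    ℂ ⊗[T.W.K] T.W.H (pw X n) →ₐ[ℂ] ℂ ⊗[T.W.K] T.W.H (pw X n) :=
  exA (sK T.rat σ) (phL T ψ E h.lin n) (ph_one h n) (ph_mul h n)

omit h in
lemma sK_nat (σ : E →+* ℂ) (n : ℕ) (j : ℕ) :
    sK T.rat σ ((n : E) ^ j) = (((n : ℝ) : ℂ)) ^ j := by
  rw [map_pow, map_natCast, Complex.ofReal_natCast]

/-- The linear map in degree zero. -/
noncomputable def ph0 : E ⊗[T.W.K] T.W.H X →ₗ[E] E ⊗[T.W.K] T.W.H X := phL T ψ E h.lin 0

lemma weil_zero (i : ℕ) (Q : Polynomial ℤ) (hQ : ∀ x ∈ (coh T E ψ).gr 0 i, ∀ l,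
      IsLin (coh T E ψ) l →
      ∑ m ∈ Finset.range (Q.natDegree + 1), (Q.coeff m : E) * l ((φ 0)^[m] x) = 0)
    (x : E ⊗[T.W.K] T.W.H X) (hx : x ∈ (T.W.gr X i).baseChange E) :
    ∑ m ∈ Finset.range (Q.natDegree + 1), (Q.coeff m : E) • ((ph0 h)^[m] x) = 0 :=
  weil_dual Q x fun l h1 h2 => hQ x hx l ⟨h1, h2⟩

lemma map_C (σ : E →+* ℂ) {n m : ℕ} {f : pw X m ⟶ pw X n} (hf : IsCoordinateMap f)
    (x : ℂ ⊗[T.W.K] T.W.H (pw X n)) :
    PhA h σ m (mapBase ℂ (T.W.map f) x) = mapBase ℂ (T.W.map f) (PhA h σ n x) := by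
  have h1 := ex_map (sK T.rat σ) (f := T.W.map f) (φ := phL T ψ E h.lin n)
    (φ' := phL T ψ E h.lin m) (ph_map h hf) x
  rw [← mapBase_eq, ← mapBase_eq] at h1
  exact h1

lemma tr_C (σ : E →+* ℂ) (x : ℂ ⊗[T.W.K] T.W.H X) :
    formBase ℂ (T.W.tr X) (ex (sK T.rat σ) (ph0 h) x) =
      (((q : ℝ) : ℂ)) ^ X.dim * formBase ℂ (T.W.tr X) x := by
  rw [← sK_nat (T := T) σ q X.dim]
  exact ex_tr (sK T.rat σ) (ph_tr h) x

lemma form_C (σ : E →+* ℂ) (i : ℕ) (x : ℂ ⊗[T.W.K] T.W.H X)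
    (hx : x ∈ (T.W.gr X i).baseChange ℂ) (y : ℂ ⊗[T.W.K] T.W.H X) :
    LinearMap.BilinForm.baseChange ℂ (show LinearMap.BilinForm T.W.K (T.W.H X) from ψ)
      (ex (sK T.rat σ) (ph0 h) x) (ex (sK T.rat σ) (ph0 h) y) =
      (((q : ℝ) : ℂ)) ^ i * LinearMap.BilinForm.baseChange ℂ
        (show LinearMap.BilinForm T.W.K (T.W.H X) from ψ) x y := by
  rw [← sK_nat (T := T) σ q i]
  exact ex_form (sK T.rat σ) (ψ := (show LinearMap.BilinForm T.W.K (T.W.H X) from ψ))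
    (φ := ph0 h) (fun x hx y => h.form i x hx y) x hx y

lemma eig_C (σ : E →+* ℂ) : ∃ (κ : Type) (_ : Fintype κ) (b : Basis κ ℂ (ℂ ⊗[T.W.K] T.W.H X))
    (dg : κ → ℕ) (lam : κ → ℂ), ∀ i, b i ∈ (T.W.gr X (dg i)).baseChange ℂ ∧
      ex (sK T.rat σ) (ph0 h) (b i) = lam i • b i ∧ ‖lam i‖ ^ 2 = (q : ℝ) ^ dg i := by
  have hfin : Module.Finite T.W.K (T.W.H X) := T.W.finite X
  refine eig_basis (V := ℂ ⊗[T.W.K] T.W.H X) (fun i => (T.W.gr X i).baseChange ℂ)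
    (IsPoincareAlgebra.baseChange (L := ℂ)
      (T.W.isPoincareAlgebra X)).isInternal.submodule_iSup_eq_top
    (ex (sK T.rat σ) (ph0 h))
    (fun i => ex_gr (sK T.rat σ) (fun x hx => ph_gr h 0 i hx)) (q : ℝ) ?_
  intro i
  obtain ⟨Q, _, h1, h2, h3⟩ := h.weil i
  exact ⟨Q, h1, h2, ex_weil (sK T.rat σ) Q (weil_zero h i Q h3)⟩

end Fr

theorem ec : S_EC.{u} := by
  intro k _ 𝒱 ops T X ψ _ E _ _ q φ S hS h σ
  have hb : ∀ (n : ℕ) (x : HL T.W E (pw X n)),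
      PhA h σ n (bY T E σ (pw X n) x) = bY T E σ (pw X n) (φ n x) :=
    fun n x => ex_bb (sK T.rat σ) (phL T ψ E h.lin n) x
  have hem : ∀ (Y : 𝒱.Obj) (c : T.W.H Y), bY T E σ Y (emL T.W E c) = em T.W ℂ c := by
    intro Y c
    have h1 := bb_tmul (sK T.rat σ) (1 : E) c
    rw [map_one] at h1
    exact h1
  have hsm : ∀ (Y : 𝒱.Obj) (c : E) (x : HL T.W E Y),
      bY T E σ Y (c • x) = cc (toH T) (σ c) • bY T E σ Y x :=
    fun Y c x => bb_smul (sK T.rat σ) c (show E ⊗[T.W.K] T.W.H Y from x)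
  have hpow : ∀ j : ℕ, σ ((q : E) ^ j) = (((q : ℝ) : ℂ)) ^ j := fun j => by
    rw [map_pow, map_natCast, Complex.ofReal_natCast]
  refine ⟨bY T E σ, PhA h σ, ?_, hsm, ?_, ?_, ?_, ?_, hem, ?_, ?_, hb⟩
  · exact fun Y x y => map_add (bb (sK T.rat σ) : E ⊗[T.W.K] T.W.H Y →ₗ[T.W.K] _)
      (show E ⊗[T.W.K] T.W.H Y from x) (show E ⊗[T.W.K] T.W.H Y from y)
  · exact fun Y x y => bb_mul (sK T.rat σ) (show E ⊗[T.W.K] T.W.H Y from x)
      (show E ⊗[T.W.K] T.W.H Y from y)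
  · intro Y Z f x
    have h1 := bb_baseChange (sK T.rat σ) (T.W.map f).toLinearMap
      (show E ⊗[T.W.K] T.W.H Z from x)
    rw [← mapBase_eq] at h1
    exact h1
  · exact fun Y x => bb_form (sK T.rat σ) (T.W.tr Y) (show E ⊗[T.W.K] T.W.H Y from x)
  · exact fun Y i x hx => bb_gr (sK T.rat σ) (p := T.W.gr Y i) hx
  · exact fun Y => bb_inj (sK T.rat σ) (V := T.W.H Y)
  · refine ⟨by exact_mod_cast h.q_pos, ?_, fun n m f hf x => map_C h σ hf x, tr_C h σ, hS, ?_, ?_,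
      form_C h σ, eig_C h σ⟩
    · exact fun n i x hx => ex_gr (sK T.rat σ) (fun x hx => ph_gr h n i hx) x hx
    · intro n j c hc
      obtain ⟨y, ⟨c', hc', rfl⟩, h2⟩ := h.conj n j (emL T.W E c) ⟨c, hc, rfl⟩
      refine ⟨c', hc', ?_⟩
      exact (congrArg (PhA h σ n) (hem _ c).symm).trans ((hb n _).trans
        ((congrArg (bY T E σ _) h2).trans ((hsm _ _ _).trans
          (congrArg₂ (fun (a : (CW (toH T)).K) (b : (CW (toH T)).H (pw X n)) => a • b)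
            (hpow j) (hem _ c')))))
    · intro n j c hc
      obtain ⟨m, hm, h2⟩ := h.fix n j (emL T.W E c) ⟨c, hc, rfl⟩
      refine ⟨m, hm, ?_⟩
      have h3 : (PhA h σ n)^[m] (bY T E σ (pw X n) (emL T.W E c)) =
          bY T E σ (pw X n) ((φ n)^[m] (emL T.W E c)) :=
        ex_iter (sK T.rat σ) (phL T ψ E h.lin n) m
          (show E ⊗[T.W.K] T.W.H (pw X n) from emL T.W E c)
      exact (congrArg ((PhA h σ n)^[m]) (hem _ c).symm).trans (h3.trans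
        ((congrArg (bY T E σ _) h2).trans ((hsm _ _ _).trans
          (congrArg₂ (fun (a : (CW (toH T)).K) (b : (CW (toH T)).H (pw X n)) => a • b)
            (hpow (j * m)) (hem _ c)))))

end Pool.Agent.N521.HR
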